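import Mathlib

/-!
# Borel–Cantelli for inhomogeneous linear forms in one variable
-/

set_option autoImplicit false

open Finset Filter Topology MeasureTheory

namespace Pool.Agent.V11270.Liou

/-- Measure of the set of `t ∈ [-R, R]` such that `c + t a` is `δ`-close to an integer. -/
theorem measure_near_int (R : ℕ) (c : ℝ) {a δ : ℝ} (ha : 1 ≤ a) (hδ : 0 < δ) (hδ1 : δ ≤ 2) :
    volume {t : ℝ | |t| ≤ R ∧ ∃ m : ℤ, |c + t * a - m| < δ} ≤
      ENNReal.ofReal ((4 * R + 20) * δ) := by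
  have ha0 : 0 < a := by linarith
  set s : Finset ℤ := Finset.Icc ⌊c - R * a - 2⌋ ⌈c + R * a + 2⌉ with hs
  have hsub : {t : ℝ | |t| ≤ R ∧ ∃ m : ℤ, |c + t * a - m| < δ} ⊆
      ⋃ m ∈ s, Metric.ball (((m : ℝ) - c) / a) (δ / a) := by
    rintro t ⟨ht, m, hm⟩
    rw [Set.mem_iUnion₂]
    rw [abs_le] at ht
    rw [abs_lt] at hm
    have h1 : t * a ≤ R * a := mul_le_mul_of_nonneg_right ht.2 ha0.le
    have h2 : -R * a ≤ t * a := mul_le_mul_of_nonneg_right ht.1 ha0.le
    refine ⟨m, ?_, ?_⟩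
    · rw [hs, Finset.mem_Icc]
      constructor
      · have : (⌊c - R * a - 2⌋ : ℝ) ≤ m := by
          have := Int.floor_le (c - R * a - 2)
          linarith
        exact_mod_cast this
      · have : (m : ℝ) ≤ ⌈c + R * a + 2⌉ := by
          have := Int.le_ceil (c + R * a + 2)
          linarith
        exact_mod_cast this
    · rw [Metric.mem_ball, Real.dist_eq]
      have : t - ((m : ℝ) - c) / a = (c + t * a - m) / a := by
        field_simp
        ring
      rw [this, abs_div, abs_of_pos ha0]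
      exact div_lt_div_of_pos_right (abs_lt.mpr hm) ha0
  refine (measure_mono hsub).trans ((measure_biUnion_finset_le _ _).trans ?_)
  simp only [Real.volume_ball]
  rw [Finset.sum_const, nsmul_eq_mul]
  have hcard : (s.card : ℝ) ≤ 2 * R * a + 7 := by
    rw [hs, Int.card_Icc]
    have h1 : (⌈c + R * a + 2⌉ : ℝ) < c + R * a + 2 + 1 := Int.ceil_lt_add_one _
    have h2 : c - R * a - 2 - 1 < (⌊c - R * a - 2⌋ : ℝ) := Int.sub_one_lt_floor _
    have hRa : 0 ≤ R * a := by positivity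
    have h3 : (0 : ℝ) ≤ ((⌈c + R * a + 2⌉ + 1 - ⌊c - R * a - 2⌋ : ℤ) : ℝ) := by
      push_cast
      have := Int.le_ceil (c + R * a + 2)
      have := Int.floor_le (c - R * a - 2)
      linarith
    have h4 : (0 : ℤ) ≤ (⌈c + R * a + 2⌉ + 1 - ⌊c - R * a - 2⌋ : ℤ) := by exact_mod_cast h3
    have h5 : (((⌈c + R * a + 2⌉ + 1 - ⌊c - R * a - 2⌋ : ℤ).toNat : ℕ) : ℝ) =
        ((⌈c + R * a + 2⌉ + 1 - ⌊c - R * a - 2⌋ : ℤ) : ℝ) := by
      rw [← Int.cast_natCast, Int.toNat_of_nonneg h4]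
    rw [h5]
    push_cast
    linarith
  have hnn : (0 : ℝ) ≤ 2 * (δ / a) := by positivity
  calc (s.card : ENNReal) * ENNReal.ofReal (2 * (δ / a))
      = ENNReal.ofReal (s.card * (2 * (δ / a))) := by
        rw [ENNReal.ofReal_mul (p := (s.card : ℝ)) (by positivity), ENNReal.ofReal_natCast]
    _ ≤ _ := by
        apply ENNReal.ofReal_le_ofReal
        calc (s.card : ℝ) * (2 * (δ / a)) ≤ (2 * R * a + 7) * (2 * (δ / a)) :=
              mul_le_mul_of_nonneg_right hcard hnn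
          _ = 4 * R * δ + 14 * (δ / a) := by
              field_simp
              ring
          _ ≤ (4 * R + 20) * δ := by
              have : δ / a ≤ δ := div_le_self hδ.le ha
              nlinarith

/-- The one-dimensional Borel–Cantelli statement. -/
theorem ae_finite {n : ℕ} (c : (Fin n → ℤ) → ℝ) :
    ∀ᵐ t : ℝ, {k : ℕ | 1 ≤ k ∧ ∃ y : Fin n → ℤ, (∀ l, |y l| ≤ (k : ℤ)) ∧
      ∃ m : ℤ, |c y + t * (k : ℝ) ^ 2 - m| < 2 / (k : ℝ) ^ (n + 2)}.Finite := by
  -- it suffices to treat bounded `t`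
  have key : ∀ R : ℕ, ∀ᵐ t : ℝ, {k : ℕ | |t| ≤ R ∧ 1 ≤ k ∧ ∃ y : Fin n → ℤ,
      (∀ l, |y l| ≤ (k : ℤ)) ∧
      ∃ m : ℤ, |c y + t * (k : ℝ) ^ 2 - m| < 2 / (k : ℝ) ^ (n + 2)}.Finite := by
    intro R
    set s : ℕ → Set ℝ := fun k => {t : ℝ | |t| ≤ R ∧ 1 ≤ k ∧ ∃ y : Fin n → ℤ,
      (∀ l, |y l| ≤ (k : ℤ)) ∧
      ∃ m : ℤ, |c y + t * (k : ℝ) ^ 2 - m| < 2 / (k : ℝ) ^ (n + 2)} with hs
    have hb : ∀ k, volume (s k) ≤ ENNReal.ofReal ((4 * R + 20) * 2 * 3 ^ n * (1 / (k : ℝ) ^ 2)) := by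
      intro k
      rcases Nat.eq_zero_or_pos k with rfl | hk
      · have : s 0 = ∅ := by
          ext t
          simp [hs]
        rw [this, measure_empty]
        exact bot_le
      have hk1 : (1 : ℝ) ≤ k := by exact_mod_cast hk
      have hk0 : (0 : ℝ) < k := by linarith
      set F : Finset (Fin n → ℤ) := Fintype.piFinset fun _ => Finset.Icc (-(k : ℤ)) k with hF
      have hsub : s k ⊆ ⋃ y ∈ F, {t : ℝ | |t| ≤ R ∧
          ∃ m : ℤ, |c y + t * (k : ℝ) ^ 2 - m| < 2 / (k : ℝ) ^ (n + 2)} := by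
        rintro t ⟨ht, -, y, hy, hm⟩
        rw [Set.mem_iUnion₂]
        refine ⟨y, ?_, ht, hm⟩
        rw [hF, Fintype.mem_piFinset]
        intro l
        rw [Finset.mem_Icc]
        exact abs_le.mp (hy l)
      have hcardF : (F.card : ℝ) ≤ 3 ^ n * (k : ℝ) ^ n := by
        rw [hF, Fintype.card_piFinset]
        simp only [Int.card_Icc, Finset.prod_const, Finset.card_univ, Fintype.card_fin]
        have h1 : ((k : ℤ) + 1 - -(k : ℤ)).toNat = 2 * k + 1 := by omega
        rw [h1, ← mul_pow]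
        push_cast
        gcongr
        linarith
      refine (measure_mono hsub).trans ((measure_biUnion_finset_le _ _).trans ?_)
      have hδ : 0 < 2 / (k : ℝ) ^ (n + 2) := by positivity
      have hδ2 : 2 / (k : ℝ) ^ (n + 2) ≤ 2 := div_le_self (by norm_num) (one_le_pow₀ hk1)
      calc ∑ y ∈ F, volume {t : ℝ | |t| ≤ R ∧
            ∃ m : ℤ, |c y + t * (k : ℝ) ^ 2 - m| < 2 / (k : ℝ) ^ (n + 2)}
          ≤ ∑ y ∈ F, ENNReal.ofReal ((4 * R + 20) * (2 / (k : ℝ) ^ (n + 2))) :=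
            Finset.sum_le_sum fun y _ => measure_near_int R (c y) (one_le_pow₀ hk1) hδ hδ2
        _ = ENNReal.ofReal (F.card * ((4 * R + 20) * (2 / (k : ℝ) ^ (n + 2)))) := by
            rw [Finset.sum_const, nsmul_eq_mul,
              ENNReal.ofReal_mul (p := (F.card : ℝ)) (by positivity), ENNReal.ofReal_natCast]
        _ ≤ _ := by
            apply ENNReal.ofReal_le_ofReal
            calc (F.card : ℝ) * ((4 * R + 20) * (2 / (k : ℝ) ^ (n + 2)))
                ≤ (3 ^ n * (k : ℝ) ^ n) * ((4 * R + 20) * (2 / (k : ℝ) ^ (n + 2))) :=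
                  mul_le_mul_of_nonneg_right hcardF (by positivity)
              _ = _ := by
                  rw [pow_add]
                  field_simp
    have hsum : ∑' k, volume (s k) ≠ ⊤ := by
      have h1 : Summable fun k : ℕ => (4 * R + 20 : ℝ) * 2 * 3 ^ n * (1 / (k : ℝ) ^ 2) :=
        (Real.summable_one_div_nat_pow.mpr (by norm_num)).mul_left _
      have h2 : ∑' k, volume (s k) ≤
          ∑' k : ℕ, ENNReal.ofReal ((4 * R + 20 : ℝ) * 2 * 3 ^ n * (1 / (k : ℝ) ^ 2)) :=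
        ENNReal.tsum_le_tsum hb
      refine ne_top_of_le_ne_top ?_ h2
      exact h1.tsum_ofReal_ne_top
    exact ae_finite_setOfPred_mem hsum
  rw [← ae_all_iff] at key
  filter_upwards [key] with t ht
  obtain ⟨R, hR⟩ := exists_nat_ge |t|
  refine (ht R).subset ?_
  rintro k ⟨hk, hy⟩
  exact ⟨hR, hk, hy⟩

end Pool.Agent.V11270.Liou
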