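import Mathlib

/-!
# A Liouville inequality for the `d`-th root of two
-/

set_option autoImplicit false

open Polynomial

namespace Pool.Agent.V11270.Liou

theorem irr_int {d : ℕ} (hd : 0 < d) : Irreducible (X ^ d - C 2 : ℤ[X]) := by
  have hm : (X ^ d - C 2 : ℤ[X]).Monic := monic_X_pow_sub_C 2 (by omega)
  have hdeg : (X ^ d - C 2 : ℤ[X]).degree = d := degree_X_pow_sub_C hd 2
  refine irreducible_of_eisenstein_criterion (P := Ideal.span {(2 : ℤ)}) ?_ ?_ ?_ ?_ ?_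
    hm.isPrimitive
  · rw [Ideal.span_singleton_prime (by norm_num)]
    exact Int.prime_two
  · rw [hm.leadingCoeff, Ideal.mem_span_singleton]
    norm_num
  · intro n hn
    rw [hdeg] at hn
    have hn' : n < d := by exact_mod_cast hn
    rw [Ideal.mem_span_singleton, coeff_sub, coeff_X_pow, coeff_C, if_neg (by omega)]
    split_ifs <;> simp
  · rw [hdeg]
    exact_mod_cast hd
  · rw [coeff_sub, coeff_X_pow, coeff_C_zero, if_neg (by omega), Ideal.span_singleton_pow,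
      Ideal.mem_span_singleton]
    norm_num

theorem irr_rat {d : ℕ} (hd : 0 < d) : Irreducible (X ^ d - C 2 : ℚ[X]) := by
  have hm : (X ^ d - C 2 : ℤ[X]).Monic := monic_X_pow_sub_C 2 (by omega)
  have h := (IsPrimitive.Int.irreducible_iff_irreducible_map_cast hm.isPrimitive).mp (irr_int hd)
  have h2 : map (Int.castRingHom ℚ) (X ^ d - C 2 : ℤ[X]) = X ^ d - C 2 := by
    rw [Polynomial.map_sub, Polynomial.map_pow, map_X, map_C]
    simp
  rwa [h2] at h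

theorem lower_aux {d : ℕ} (hd : 0 < d) {θ : ℝ} {F : ℤ[X]}
    {B : ℝ} (hB : ∀ z : ℂ, z ^ d = 2 → ‖aeval z F‖ ≤ B) (K : Type) [Field K] [Algebra ℚ K]
    [FiniteDimensional ℚ K] (hfin : Module.finrank ℚ K = d) (r : K) (hr : r ^ d = 2)
    (hα0 : aeval r F ≠ 0) (σ₀ : K →ₐ[ℚ] ℂ) (hσ₀ : σ₀ r = (θ : ℂ)) :
    1 ≤ |aeval θ F| * B ^ (d - 1) := by
  classical
  -- the element
  set α : K := aeval r F with hα
  have hrint : IsIntegral ℤ r := by
    refine ⟨X ^ d - C 2, monic_X_pow_sub_C 2 (by omega), ?_⟩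
    rw [eval₂_sub, eval₂_pow, eval₂_X, eval₂_C, hr]
    simp
  have hαint : IsIntegral ℤ α := by
    rw [hα, aeval_eq_sum_range]
    refine IsIntegral.sum _ fun i _ => ?_
    rw [zsmul_eq_mul]
    exact (isIntegral_algebraMap (R := ℤ) (A := K) (x := F.coeff i)).mul (hrint.pow i)
  have hnint : IsIntegral ℤ (Algebra.norm ℚ α) := Algebra.isIntegral_norm ℚ hαint
  obtain ⟨k, hk⟩ := IsIntegrallyClosed.isIntegral_iff.mp hnint
  have hk0 : k ≠ 0 := by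
    rintro rfl
    rw [map_zero] at hk
    exact hα0 (Algebra.norm_eq_zero_iff.mp hk.symm)
  have hnorm := Algebra.norm_eq_prod_embeddings ℚ ℂ α
  have h1 : (1 : ℝ) ≤ ‖∏ σ : K →ₐ[ℚ] ℂ, σ α‖ := by
    rw [← hnorm, ← hk]
    simp only [algebraMap_int_eq, eq_intCast, map_intCast]
    rw [Complex.norm_intCast]
    exact_mod_cast Int.one_le_abs hk0
  have hσα : ∀ σ : K →ₐ[ℚ] ℂ, σ α = aeval (σ r) F := by
    intro σ
    rw [hα]
    exact (aeval_algHom_apply (σ.restrictScalars ℤ) r F).symm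
  have hσr : ∀ σ : K →ₐ[ℚ] ℂ, (σ r) ^ d = 2 := by
    intro σ
    rw [← map_pow, hr]
    exact map_ofNat σ 2
  have hσB : ∀ σ : K →ₐ[ℚ] ℂ, ‖σ α‖ ≤ B := fun σ => by
    rw [hσα]
    exact hB _ (hσr σ)
  have hcard : (Finset.univ : Finset (K →ₐ[ℚ] ℂ)).card = d := by
    rw [Finset.card_univ, AlgHom.card, hfin]
  rw [norm_prod, ← Finset.mul_prod_erase _ _ (Finset.mem_univ σ₀)] at h1
  have h2 : ∏ σ ∈ Finset.univ.erase σ₀, ‖σ α‖ ≤ B ^ (d - 1) := by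
    refine (Finset.prod_le_prod (fun _ _ => norm_nonneg _) (fun σ _ => hσB σ)).trans ?_
    rw [Finset.prod_const, Finset.card_erase_of_mem (Finset.mem_univ _), hcard]
  have h3 : ‖σ₀ α‖ = |aeval θ F| := by
    rw [hσα, hσ₀]
    have : aeval (θ : ℂ) F = ((aeval θ F : ℝ) : ℂ) := by
      rw [show (θ : ℂ) = algebraMap ℝ ℂ θ from rfl, aeval_algebraMap_apply]
      rfl
    rw [this, Complex.norm_real, Real.norm_eq_abs]
  rw [h3] at h1
  exact h1.trans (mul_le_mul_of_nonneg_left h2 (abs_nonneg _))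

/-- Lower bound for an integer polynomial of degree `< d` at a real number `θ` with `θ ^ d = 2`. -/
theorem lower {d : ℕ} (hd : 0 < d) {θ : ℝ} (hθ : θ ^ d = 2) {F : ℤ[X]} (hF : F ≠ 0)
    (hdeg : F.natDegree < d) {B : ℝ} (hB : ∀ z : ℂ, z ^ d = 2 → ‖aeval z F‖ ≤ B) :
    1 ≤ |aeval θ F| * B ^ (d - 1) := by
  have hirr : Fact (Irreducible (X ^ d - C 2 : ℚ[X])) := ⟨irr_rat hd⟩
  have hPm : (X ^ d - C 2 : ℚ[X]).Monic := monic_X_pow_sub_C 2 (by omega)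
  have hPdeg : (X ^ d - C 2 : ℚ[X]).natDegree = d := natDegree_X_pow_sub_C
  have hfd : FiniteDimensional ℚ (AdjoinRoot (X ^ d - C 2 : ℚ[X])) :=
    (AdjoinRoot.powerBasis hPm.ne_zero).finite
  have hfin : Module.finrank ℚ (AdjoinRoot (X ^ d - C 2 : ℚ[X])) = d := by
    rw [(AdjoinRoot.powerBasis hPm.ne_zero).finrank, AdjoinRoot.powerBasis_dim, hPdeg]
  have hr : (AdjoinRoot.root (X ^ d - C 2 : ℚ[X])) ^ d = 2 := by
    have h1 := AdjoinRoot.eval₂_root (X ^ d - C 2 : ℚ[X])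
    rw [eval₂_sub, eval₂_pow, eval₂_X, eval₂_C, sub_eq_zero] at h1
    rw [h1]
    simp
  have hα0 : aeval (AdjoinRoot.root (X ^ d - C 2 : ℚ[X])) F ≠ 0 := by
    have h1 : aeval (AdjoinRoot.root (X ^ d - C 2 : ℚ[X])) F =
        AdjoinRoot.mk _ (F.map (Int.castRingHom ℚ)) := by
      rw [← AdjoinRoot.aeval_eq, ← algebraMap_int_eq, aeval_map_algebraMap]
    rw [h1]
    refine AdjoinRoot.mk_ne_zero_of_natDegree_lt hPm ?_ ?_
    · rwa [Ne, Polynomial.map_eq_zero_iff (Int.cast_injective)]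
    · rw [hPdeg]
      exact lt_of_le_of_lt natDegree_map_le hdeg
  have hev : (X ^ d - C 2 : ℚ[X]).eval₂ ((Algebra.ofId ℚ ℂ : ℚ →ₐ[ℚ] ℂ) : ℚ →+* ℂ)
      (θ : ℂ) = 0 := by
    rw [eval₂_sub, eval₂_pow, eval₂_X, eval₂_C, sub_eq_zero, ← Complex.ofReal_pow, hθ]
    exact (map_ofNat ((Algebra.ofId ℚ ℂ : ℚ →ₐ[ℚ] ℂ) : ℚ →+* ℂ) 2).symm
  exact lower_aux hd hB (AdjoinRoot (X ^ d - C 2 : ℚ[X])) hfin _ hr hα0
    (AdjoinRoot.liftAlgHom _ (Algebra.ofId ℚ ℂ) (θ : ℂ) hev) (AdjoinRoot.liftAlgHom_root _ _ _ hev)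

end Pool.Agent.V11270.Liou
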